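import Pool.Agent.H71.HV.Targets2

/-! Module ER: the theorem of Erdős and Rado. -/

set_option autoImplicit false

open Set Cardinal Ordinal

namespace Pool.Agent.H73.HV

/-- iterated exponential -/
noncomputable def itexp (μ : Cardinal.{0}) : ℕ → Cardinal.{0}
  | 0 => μ
  | k + 1 => 2 ^ itexp μ k

lemma aleph0_le_itexp {μ : Cardinal.{0}} (h : ℵ₀ ≤ μ) : ∀ k, ℵ₀ ≤ itexp μ k
  | 0 => h
  | k + 1 => (aleph0_le_itexp h k).trans (cantor _).le

section tree

variable {κ : Type} [LinearOrder κ] [WellFoundedLT κ] {n : ℕ}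
  (c : (Fin (n + 1 + 1) → κ) → ℕ)

/-- the partition tree: `R x y` iff `x` is a predecessor of `y` -/
noncomputable def R (x : κ) : κ → Prop :=
  WellFounded.fix (C := fun _ => κ → Prop) (r := (· < ·)) wellFounded_lt
    (fun x ih y => x < y ∧ ∀ t : Fin (n + 1) → κ, StrictMono t →
      (∀ j, ∃ h : t j < x, ih (t j) h x) →
      c (Fin.snoc (α := fun _ => κ) t x) = c (Fin.snoc (α := fun _ => κ) t y)) x

lemma R_iff (x y : κ) : R c x y ↔ x < y ∧ ∀ t : Fin (n + 1) → κ, StrictMono t →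
    (∀ j, t j < x ∧ R c (t j) x) →
    c (Fin.snoc (α := fun _ => κ) t x) = c (Fin.snoc (α := fun _ => κ) t y) := by
  unfold R
  rw [WellFounded.fix_eq]
  constructor
  · rintro ⟨h1, h2⟩
    exact ⟨h1, fun t ht h => h2 t ht fun j => ⟨(h j).1, (h j).2⟩⟩
  · rintro ⟨h1, h2⟩
    exact ⟨h1, fun t ht h => h2 t ht fun j => ⟨(h j).1, (h j).2⟩⟩

lemma R_lt {x y : κ} (h : R c x y) : x < y := ((R_iff c x y).mp h).1

lemma R_trans : ∀ u w x : κ, R c u w → R c w x → R c u x := by
  intro u
  induction u using WellFoundedLT.induction with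
  | ind u ih =>
    intro w x huw hwx
    rw [R_iff] at huw ⊢
    refine ⟨huw.1.trans (R_lt c hwx), fun t ht h => ?_⟩
    rw [huw.2 t ht h]
    exact ((R_iff c w x).mp hwx).2 t ht fun j =>
      have h1 : R c (t j) w := ih (t j) (h j).1 u w (h j).2 ((R_iff c u w).mpr huw)
      ⟨R_lt c h1, h1⟩

lemma R_back {x y : κ} (hxy : R c x y) : ∀ w, w < x → R c w y → R c w x := by
  intro w
  induction w using WellFoundedLT.induction with
  | ind w ih =>
    intro hwx hwy
    rw [R_iff]
    refine ⟨hwx, fun t ht h => ?_⟩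
    rw [((R_iff c w y).mp hwy).2 t ht h]
    refine (((R_iff c x y).mp hxy).2 t ht fun j => ?_).symm
    have h1 : R c (t j) y := R_trans c _ _ _ (h j).2 hwy
    exact ⟨(h j).1.trans hwx, ih (t j) (h j).1 ((h j).1.trans hwx) h1⟩

/-- the set of predecessors -/
def pred (y : κ) : Set κ := {x | R c x y}

lemma pred_eq {x y : κ} (hxy : R c x y) : pred c x = {w | w ∈ pred c y ∧ w < x} := by
  ext w
  exact ⟨fun h => ⟨R_trans c _ _ _ h hxy, R_lt c h⟩, fun h => R_back c hxy w h.2 h.1⟩

/-- end-homogeneity -/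
lemma end_hom {x y : κ} (hxy : R c x y) {t : Fin (n + 1) → κ} (ht : StrictMono t)
    (h : ∀ j, t j ∈ pred c y ∧ t j < x) :
    c (Fin.snoc (α := fun _ => κ) t x) = c (Fin.snoc (α := fun _ => κ) t y) :=
  ((R_iff c x y).mp hxy).2 t ht fun j => ⟨(h j).2, R_back c hxy _ (h j).2 (h j).1⟩

/-- data attached to an initial segment of a well-ordered set -/
abbrev Dat (W : Type) [LinearOrder W] (n : ℕ) : Type :=
  Σ ξ : W, ((Fin (n + 1) → Iio ξ) → ℕ)

lemma dat_eq {W : Type} [LinearOrder W] {n : ℕ} {a b : Dat W n} (h : a = b) :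
    a.1 = b.1 ∧ ∀ (s : Fin (n + 1) → W) (h1 : ∀ j, s j < a.1) (h2 : ∀ j, s j < b.1),
      a.2 (fun j => ⟨s j, h1 j⟩) = b.2 (fun j => ⟨s j, h2 j⟩) := by
  subst h
  exact ⟨rfl, fun _ _ _ => rfl⟩

/-- data of a point, given an initial segment embedding of its predecessors -/
noncomputable def dat {W : Type} [LinearOrder W] (y : κ)
    (f : PrincipalSeg (fun a b : pred c y => a < b) (fun a b : W => a < b)) : Dat W n :=
  ⟨f.top, fun s => c (Fin.snoc (α := fun _ => κ)
    (fun j => ((Classical.choose (f.mem_range_iff_rel.mpr (s j).2) : pred c y) : κ)) y)⟩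

lemma dat_spec {W : Type} [LinearOrder W] (y : κ)
    (f : PrincipalSeg (fun a b : pred c y => a < b) (fun a b : W => a < b))
    (t : Fin (n + 1) → pred c y) (s : Fin (n + 1) → W) (hs : ∀ j, s j = f (t j))
    (h : ∀ j, s j < f.top) :
    (dat c y f).2 (fun j => ⟨s j, h j⟩) =
      c (Fin.snoc (α := fun _ => κ) (fun j => (t j : κ)) y) := by
  unfold dat
  simp only
  congr 2
  funext j
  have h1 := Classical.choose_spec (f.mem_range_iff_rel.mpr (h j))
  have h2 : f (Classical.choose (f.mem_range_iff_rel.mpr (h j))) = f (t j) := by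
    rw [h1, hs]
  exact congrArg Subtype.val (f.injective h2)

lemma dat_inj {W : Type} [LinearOrder W]
    (f : ∀ y : κ, PrincipalSeg (fun a b : pred c y => a < b) (fun a b : W => a < b))
    {y1 y2 : κ} (hlt : y1 < y2) (h : dat c y1 (f y1) = dat c y2 (f y2)) : False := by
  obtain ⟨htop, hcol⟩ := dat_eq h
  have htop' : (f y1).top = (f y2).top := htop
  -- the two sets of predecessors agree
  have key : ∀ w : κ, ∀ (h1 : w ∈ pred c y1) (w' : κ) (h2 : w' ∈ pred c y2),
      f y1 ⟨w, h1⟩ = f y2 ⟨w', h2⟩ → w = w' := by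
    intro w
    induction w using WellFoundedLT.induction with
    | ind w ih =>
      intro h1 w' h2 he
      have down : ∀ u (hu : u ∈ pred c y1), u < w → ∃ hu' : u ∈ pred c y2,
          u < w' ∧ f y1 ⟨u, hu⟩ = f y2 ⟨u, hu'⟩ := by
        intro u hu huw
        have h3 : f y1 ⟨u, hu⟩ < f y1 ⟨w, h1⟩ := (f y1).map_rel_iff.mpr huw
        obtain ⟨v, hv⟩ := (f y2).mem_range_iff_rel.mpr
          (show f y1 ⟨u, hu⟩ < (f y2).top from htop' ▸ (f y1).lt_top _)
        have h4 : u = v.1 := ih u huw hu v.1 v.2 hv.symm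
        rw [he, ← hv] at h3
        have h5 : v < ⟨w', h2⟩ := (f y2).map_rel_iff.mp h3
        refine ⟨h4 ▸ v.2, h4 ▸ h5, ?_⟩
        rw [← hv]
        congr 1
        exact Subtype.ext h4.symm
      have up : ∀ u (hu : u ∈ pred c y2), u < w' → ∃ hu' : u ∈ pred c y1,
          u < w ∧ f y1 ⟨u, hu'⟩ = f y2 ⟨u, hu⟩ := by
        intro u hu huw
        have h3 : f y2 ⟨u, hu⟩ < f y2 ⟨w', h2⟩ := (f y2).map_rel_iff.mpr huw
        obtain ⟨v, hv⟩ := (f y1).mem_range_iff_rel.mpr
          (show f y2 ⟨u, hu⟩ < (f y1).top from htop' ▸ (f y2).lt_top _)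
        rw [← he, ← hv] at h3
        have h5 : v < ⟨w, h1⟩ := (f y1).map_rel_iff.mp h3
        have h4 : v.1 = u := ih v.1 h5 v.2 u hu hv
        refine ⟨h4 ▸ v.2, h4 ▸ h5, ?_⟩
        rw [← hv]
        congr 1
        exact Subtype.ext h4.symm
      have hpred : pred c w = pred c w' := by
        rw [pred_eq c h1, pred_eq c h2]
        ext u
        constructor
        · rintro ⟨hu, huw⟩
          obtain ⟨a, b, -⟩ := down u hu huw
          exact ⟨a, b⟩
        · rintro ⟨hu, huw⟩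
          obtain ⟨a, b, -⟩ := up u hu huw
          exact ⟨a, b⟩
      have hc : ∀ t : Fin (n + 1) → κ, StrictMono t → (∀ j, t j ∈ pred c w) →
          c (Fin.snoc (α := fun _ => κ) t w) = c (Fin.snoc (α := fun _ => κ) t w') := by
        intro t ht htw
        have a1 : ∀ j, t j ∈ pred c y1 ∧ t j < w := fun j => by
          have := htw j; rw [pred_eq c h1] at this; exact this
        have a2 : ∀ j, t j ∈ pred c y2 ∧ t j < w' := fun j => by
          have := htw j; rw [hpred, pred_eq c h2] at this; exact this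
        rw [end_hom c h1 ht a1, end_hom c h2 ht a2]
        have e1 := dat_spec c y1 (f y1) (fun j => ⟨t j, (a1 j).1⟩)
          (fun j => f y1 ⟨t j, (a1 j).1⟩) (fun _ => rfl) (fun j => (f y1).lt_top _)
        have e2 := dat_spec c y2 (f y2) (fun j => ⟨t j, (a2 j).1⟩)
          (fun j => f y1 ⟨t j, (a1 j).1⟩) (fun j => by
            obtain ⟨_, _, e⟩ := down (t j) (a1 j).1 (a1 j).2
            exact e) (fun j => htop' ▸ (f y1).lt_top _)
        rw [← e1, ← e2]
        exact hcol _ _ _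
      rcases lt_trichotomy w w' with hww | hww | hww
      · exfalso
        have : R c w w' := (R_iff c w w').mpr ⟨hww, fun t ht h => hc t ht fun j => (h j).2⟩
        have h6 : w ∈ pred c w := hpred ▸ this
        exact lt_irrefl _ (R_lt c h6)
      · exact hww
      · exfalso
        have : R c w' w := (R_iff c w' w).mpr ⟨hww, fun t ht h =>
          (hc t ht fun j => hpred ▸ (h j).2).symm⟩
        have h6 : w' ∈ pred c w' := hpred ▸ this
        exact lt_irrefl _ (R_lt c h6)
  have hsub : ∀ w (h1 : w ∈ pred c y1), ∃ h2 : w ∈ pred c y2, f y1 ⟨w, h1⟩ = f y2 ⟨w, h2⟩ := by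
    intro w h1
    obtain ⟨v, hv⟩ := (f y2).mem_range_iff_rel.mpr
      (show f y1 ⟨w, h1⟩ < (f y2).top from htop' ▸ (f y1).lt_top _)
    have h4 : w = v.1 := key w h1 v.1 v.2 hv.symm
    refine ⟨h4 ▸ v.2, ?_⟩
    rw [← hv]
    congr 1
    exact Subtype.ext h4.symm
  have hsup : ∀ w (h2 : w ∈ pred c y2), w ∈ pred c y1 := by
    intro w h2
    obtain ⟨v, hv⟩ := (f y1).mem_range_iff_rel.mpr
      (show f y2 ⟨w, h2⟩ < (f y1).top from htop' ▸ (f y2).lt_top _)
    have h4 : v.1 = w := key v.1 v.2 w h2 hv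
    exact h4 ▸ v.2
  have hR : R c y1 y2 := by
    rw [R_iff]
    refine ⟨hlt, fun t ht h => ?_⟩
    have e1 := dat_spec c y1 (f y1) (fun j => ⟨t j, (h j).2⟩)
      (fun j => f y1 ⟨t j, (h j).2⟩) (fun _ => rfl) (fun j => (f y1).lt_top _)
    have e2 := dat_spec c y2 (f y2) (fun j => ⟨t j, (hsub (t j) (h j).2).1⟩)
      (fun j => f y1 ⟨t j, (h j).2⟩) (fun j => (hsub (t j) (h j).2).2)
      (fun j => htop' ▸ (f y1).lt_top _)
    rw [← e1, ← e2]
    exact hcol _ _ _
  exact lt_irrefl _ (R_lt c (hsup y1 hR))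

end tree

/-- some point has many predecessors -/
lemma exists_big {κ : Type} [LinearOrder κ] [WellFoundedLT κ] {n : ℕ}
    (c : (Fin (n + 1 + 1) → κ) → ℕ) {l : Cardinal.{0}} (hl : ℵ₀ ≤ l) (hκ : 2 ^ l < #κ) :
    ∃ y, l < #(pred c y) := by
  by_contra hcon
  push Not at hcon
  let W : Type := (Order.succ l).ord.ToType
  have hf : ∀ y : κ, Nonempty (PrincipalSeg (fun a b : pred c y => a < b)
      (fun a b : W => a < b)) := by
    intro y
    rw [← Ordinal.type_lt_iff]
    have h1 : Ordinal.type (fun a b : W => a < b) = (Order.succ l).ord :=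
      Ordinal.type_toType _
    rw [h1, Cardinal.lt_ord]
    rw [Ordinal.card_type]
    exact (hcon y).trans_lt (Order.lt_succ l)
  let f := fun y => (hf y).some
  have hinj : Function.Injective fun y => dat c y (f y) := by
    intro y1 y2 h
    rcases lt_trichotomy y1 y2 with h1 | h1 | h1
    · exact (dat_inj c f h1 h).elim
    · exact h1
    · exact (dat_inj c f h1 h.symm).elim
  have h1 : #κ ≤ #(Dat W n) := mk_le_of_injective hinj
  have h2 : #(Dat W n) ≤ 2 ^ l := by
    have h3 : ∀ ξ : W, #((Fin (n + 1) → Iio ξ) → ℕ) ≤ 2 ^ l := by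
      intro ξ
      have h4 : #(Iio ξ) ≤ l := Order.lt_succ_iff.mp (mk_Iio_toType_ord_lt ξ)
      have h5 : #(Fin (n + 1) → Iio ξ) ≤ l := by
        rw [← power_def, mk_fin]
        calc #(Iio ξ) ^ ((n + 1 : ℕ) : Cardinal) ≤ l ^ ((n + 1 : ℕ) : Cardinal) :=
              power_le_power_right h4
          _ ≤ l := power_nat_le hl
      rw [← power_def, mk_nat]
      calc ℵ₀ ^ #(Fin (n + 1) → Iio ξ) ≤ ℵ₀ ^ l :=
            power_le_power_left aleph0_ne_zero h5
        _ = 2 ^ l := power_eq_two_power hl (natCast_lt_aleph0 (n := 2)).le hl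
    rw [mk_sigma]
    calc Cardinal.sum (fun ξ : W => #((Fin (n + 1) → Iio ξ) → ℕ))
        ≤ Cardinal.sum (fun _ : W => 2 ^ l) := sum_le_sum _ _ h3
      _ = #W * 2 ^ l := by rw [sum_const']
      _ = Order.succ l * 2 ^ l := by rw [mk_toType, card_ord]
      _ ≤ 2 ^ l * 2 ^ l := mul_le_mul' (Order.succ_le_of_lt (cantor l)) le_rfl
      _ = 2 ^ l := mul_eq_self (hl.trans (cantor l).le)
  exact absurd (h1.trans h2) (not_le.mpr hκ)

/-- the main induction -/
theorem er_ind : ∀ (n : ℕ) (μ : Cardinal.{0}), ℵ₀ ≤ μ → ∀ (κ : Type) [LinearOrder κ]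
    [WellFoundedLT κ], itexp μ n < #κ → ∀ c : (Fin (n + 1) → κ) → ℕ,
    ∃ X : Set κ, μ < #X ∧ ∃ v, ∀ t : Fin (n + 1) → κ, StrictMono t → (∀ j, t j ∈ X) → c t = v
  | 0, μ, hμ, κ, _, _, hκ, c => by
    by_contra hcon
    push Not at hcon
    have h1 : ∀ v : ℕ, #{x : κ | c (fun _ => x) = v} ≤ μ := by
      intro v
      by_contra h
      push Not at h
      obtain ⟨t, -, h2, h3⟩ := hcon _ h v
      apply h3
      have := h2 0
      rw [mem_ofPred_eq] at this
      rw [← this]
      congr 1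
      funext j
      rw [show j = 0 from Fin.ext (by omega)]
    have h2 : (⋃ v : ℕ, {x : κ | c (fun _ => x) = v}) = Set.univ := by
      ext x; simp
    have h3 : #κ ≤ μ := by
      rw [← mk_univ, ← h2]
      calc #(⋃ v : ℕ, {x : κ | c (fun _ => x) = v} : Set κ)
          ≤ Cardinal.sum (fun v : ℕ => #{x : κ | c (fun _ => x) = v}) := mk_iUnion_le_sum_mk
        _ ≤ Cardinal.sum (fun _ : ℕ => μ) := sum_le_sum _ _ h1
        _ = ℵ₀ * μ := by rw [sum_const', mk_nat]
        _ = μ := aleph0_mul_eq hμ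
    exact absurd h3 (not_le.mpr hκ)
  | n + 1, μ, hμ, κ, _, _, hκ, c => by
    obtain ⟨y, hy⟩ := exists_big c (aleph0_le_itexp hμ n) hκ
    obtain ⟨X, hX, v, hv⟩ := er_ind n μ hμ (pred c y) hy
      (fun t => c (Fin.snoc (α := fun _ => κ) (fun j => ((t j : pred c y) : κ)) y))
    refine ⟨Subtype.val '' X, ?_, v, ?_⟩
    · rwa [mk_image_eq Subtype.val_injective]
    · intro t ht hX'
      have h1 : ∀ j, t j ∈ pred c y := fun j => by
        obtain ⟨z, -, hz⟩ := hX' j
        rw [← hz]; exact z.2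
      have h2 := end_hom c (h1 (Fin.last _)) (t := Fin.init t) (fun i j hij => by
        exact ht (Fin.castSucc_lt_castSucc_iff.mpr hij)) (fun j => by
        exact ⟨h1 _, ht (Fin.castSucc_lt_last j)⟩)
      have h3 : Fin.snoc (α := fun _ => κ) (Fin.init t) (t (Fin.last _)) = t :=
        Fin.snoc_init_self t
      rw [h3] at h2
      rw [h2]
      exact hv (fun j => ⟨Fin.init t j, h1 _⟩) (fun i j hij => by
        exact ht (Fin.castSucc_lt_castSucc_iff.mpr hij)) (fun j => by
        obtain ⟨z, hz, hz'⟩ := hX' (Fin.castSucc j)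
        have : (⟨Fin.init t j, h1 _⟩ : pred c y) = z := Subtype.ext hz'.symm
        rw [this]; exact hz)

lemma itexp_beth (α : Ordinal.{0}) : ∀ k : ℕ, itexp (beth α) k = beth (α + k)
  | 0 => by simp [itexp]
  | k + 1 => by
    rw [itexp, itexp_beth α k, Nat.cast_succ, ← add_assoc, ← Order.succ_eq_add_one, beth_succ]

/-- ER: the theorem of Erdős and Rado. -/
theorem ER : Pool.Agent.H71.HV.ERStmt := by
  intro n α κ _ _ hκ c
  rcases n with _ | n
  · refine ⟨Set.univ, ?_, c Fin.elim0, fun t _ _ => ?_⟩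
    · rw [mk_univ]
      exact (beth_strictMono.monotone le_self_add).trans hκ
    · congr 1
      funext j
      exact j.elim0
  · have h1 : itexp (beth α) n < #κ := by
      rw [itexp_beth]
      refine (beth_strictMono ?_).trans_le hκ
      exact add_lt_add_right (natCast_lt_omega0 n) α
    obtain ⟨X, hX, h⟩ := er_ind n (beth α) (aleph0_le_beth α) κ h1 c
    exact ⟨X, hX.le, h⟩

end Pool.Agent.H73.HV
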