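import Pool.Agent.H71.HV.Targets2

/-! Module HOM: coherent homogeneous sets, from the theorem of Erdős and Rado. -/

set_option autoImplicit false

open Set Cardinal Ordinal

namespace Pool.Agent.H73.HV

open Pool.Agent.H71.HV

variable {κ : Type} [LinearOrder κ] [WellFoundedLT κ]

/-- homogeneity for the first `m` colourings -/
def HomSet (ar : ℕ → ℕ) (c : ∀ i, (Fin (ar i) → κ) → ℕ) (m : ℕ) (v : ℕ → ℕ) (X : Set κ) : Prop :=
  ∀ i < m, ∀ t : Fin (ar i) → κ, StrictMono t → (∀ j, t j ∈ X) → c i t = v i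

/-- `v` is realised at all countable levels -/
def GoodV (ar : ℕ → ℕ) (c : ∀ i, (Fin (ar i) → κ) → ℕ) (m : ℕ) (v : ℕ → ℕ) : Prop :=
  ∀ α : Ordinal.{0}, α < ω₁ → ∃ X : Set κ, beth α ≤ #X ∧ HomSet ar c m v X

lemma good_step (hER : ERStmt) (ar : ℕ → ℕ) (c : ∀ i, (Fin (ar i) → κ) → ℕ) (m : ℕ) (v : ℕ → ℕ)
    (h : GoodV ar c m v) : ∃ k, GoodV ar c (m + 1) (Function.update v m k) := by
  have hP : ∃ k, ∀ α : Ordinal.{0}, α < ω₁ → ∃ X : Set κ, beth α ≤ #X ∧ HomSet ar c m v X ∧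
      ∀ t : Fin (ar m) → κ, StrictMono t → (∀ j, t j ∈ X) → c m t = k := by
    by_contra hcon
    push Not at hcon
    choose a ha hna using hcon
    have h1 : (⨆ k, a k) < ω₁ := Ordinal.iSup_lt_omega_one ha
    have h2 : (⨆ k, a k) + ω < ω₁ :=
      (isPrincipal_add_omega 1) h1 omega0_lt_omega_one
    obtain ⟨X, hX, hX'⟩ := h _ h2
    obtain ⟨Y, hY, k, hk⟩ := hER (ar m) (⨆ k, a k) X hX
      (fun t => c m (fun j => (t j : κ)))
    have h3 : a k ≤ ⨆ k, a k := Ordinal.le_iSup a k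
    obtain ⟨t, ht, htX, hne⟩ := hna k (Subtype.val '' Y)
      (by
        rw [mk_image_eq Subtype.val_injective]
        exact (beth_strictMono.monotone h3).trans hY)
      (fun i hi t ht htX => hX' i hi t ht fun j => by
        obtain ⟨z, -, hz⟩ := htX j
        rw [← hz]; exact z.2)
    apply hne
    have h4 : ∀ j, t j ∈ X := fun j => by
      obtain ⟨z, -, hz⟩ := htX j
      rw [← hz]; exact z.2
    exact hk (fun j => ⟨t j, h4 j⟩) (fun i j hij => ht hij) (fun j => by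
      obtain ⟨z, hz, hz'⟩ := htX j
      have : (⟨t j, h4 j⟩ : X) = z := Subtype.ext hz'.symm
      rw [this]; exact hz)
  obtain ⟨k, hk⟩ := hP
  refine ⟨k, fun α hα => ?_⟩
  obtain ⟨X, hX, h1, h2⟩ := hk α hα
  refine ⟨X, hX, fun i hi t ht htX => ?_⟩
  rcases Nat.lt_succ_iff_lt_or_eq.mp hi with h3 | h3
  · rw [Function.update_of_ne h3.ne]
    exact h1 i h3 t ht htX
  · subst h3
    rw [Function.update_self]
    exact h2 t ht htX

/-- HOM from ER -/
theorem HOM : HomAsmStmt := by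
  intro hER κ _ _ hκ ar c
  have h0 : GoodV ar c 0 0 := fun α hα =>
    ⟨Set.univ, by rw [mk_univ]; exact (beth_strictMono.monotone hα.le).trans hκ,
      fun i hi => absurd hi (Nat.not_lt_zero _)⟩
  let V : ∀ m : ℕ, {v : ℕ → ℕ // GoodV ar c m v} := fun m =>
    Nat.rec ⟨0, h0⟩ (fun m v => ⟨Function.update v.1 m (good_step hER ar c m v.1 v.2).choose,
      (good_step hER ar c m v.1 v.2).choose_spec⟩) m
  have hV : ∀ m i, i < m → (V (m + 1)).1 i = (V m).1 i := fun m i hi =>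
    Function.update_of_ne hi.ne _ _
  have hV' : ∀ m i, i < m → (V m).1 i = (V (i + 1)).1 i := by
    intro m
    induction m with
    | zero => intro i hi; exact absurd hi (Nat.not_lt_zero _)
    | succ m ih =>
      intro i hi
      rcases Nat.lt_succ_iff_lt_or_eq.mp hi with h3 | h3
      · rw [hV m i h3, ih i h3]
      · rw [h3]
  refine ⟨fun i => (V (i + 1)).1 i, fun m => ?_⟩
  obtain ⟨X, hX, hX'⟩ := (V m).2 0 (omega_pos 1)
  refine ⟨X, ?_, fun i hi t ht htX => ?_⟩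
  · rw [← Set.infinite_coe_iff, Cardinal.infinite_iff]
    exact (aleph0_le_beth 0).trans hX
  · rw [hX' i hi t ht htX, hV' m i hi]

end Pool.Agent.H73.HV
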