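import Pool.Agent.H71.HV.Targets2

/-! Module SIL: Silver's theorem from SIL1 and SIL2. -/

set_option autoImplicit false

open Set Topology

namespace Pool.Agent.H73.HV

open Pool.Agent.H71.HV

lemma exists_denseSeq : ∃ s : ℕ → List Bool, DenseSeq s := by
  refine ⟨fun n => (((Encodable.decode (α := List Bool) (Nat.unpair n).1).getD []) ++
    List.replicate n false).take n, fun n => ?_, fun t => ?_⟩
  · simp
  · refine ⟨Nat.pair (Encodable.encode t) t.length, ?_⟩
    simp only [Nat.unpair_pair, Encodable.encodek, Option.getD_some]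
    rw [List.prefix_take_iff]
    exact ⟨List.prefix_append _ _, Nat.right_le_pair _ _⟩

/-- SIL -/
theorem SIL : SilverAsmStmt := by
  intro h1 h2 E hE
  obtain ⟨s, hs⟩ := exists_denseSeq
  rcases h1 s hs E hE.compl.analyticSet with h | ⟨ψ, hψ, hψE⟩
  · exact Or.inl h
  · right
    obtain ⟨F, hF, hFE⟩ := h2 s hs (Setoid.comap ψ E)
      ((hψ.prodMap hψ).measurable hE) hψE
    exact ⟨ψ ∘ F, hψ.comp hF, hFE⟩

end Pool.Agent.H73.HV
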