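import Pool.Agent.H71.HV.Targets2

/-! Module SIL1: for a co-analytic equivalence relation `E` on the Baire space, either there are
countably many classes or there is a continuous homomorphism from `G₀` to the complement of `E`
(after B. Miller). -/

set_option autoImplicit false

open Set Topology TopologicalSpace Filter

namespace Pool.Agent.H73.HV

open Pool.Agent.H71.HV

/-- codes of approximations -/
abbrev Code (n : ℕ) : Type :=
  ((Fin n → Bool) → Fin n → ℕ) × (Fin n → (Fin n → Bool) → Fin n → ℕ)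

/-- configurations -/
structure Conf (n : ℕ) where
  x : (Fin n → Bool) → ℕ → ℕ
  w : Fin n → (Fin n → Bool) → ℕ → ℕ

/-- the code of a configuration -/
def Conf.cod {n : ℕ} (C : Conf n) : Code n := (fun t i => C.x t i, fun k t i => C.w k t i)

/-- one-step extensions of codes -/
def OneStep {n : ℕ} (a : Code n) (b : Code (n + 1)) : Prop :=
  (∀ t (i : Fin n), b.1 t i.castSucc = a.1 (fun j => t j.castSucc) i) ∧
  ∀ (k : Fin n) t (i : Fin n), b.2 k.castSucc t i.castSucc = a.2 k (fun j => t j.castSucc) i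

section

variable (S : ℕ → ℕ → Bool) (φ : (ℕ → ℕ) → (ℕ → ℕ) × (ℕ → ℕ))

/-- `t` extends `s k ⌢ false` -/
def Ext {n : ℕ} (k : Fin n) (t : Fin n → Bool) : Prop :=
  (∀ i : Fin n, i.1 < k.1 → t i = S k i) ∧ t k = false

/-- compatibility with the witnesses -/
def IsConf {n : ℕ} (C : Conf n) : Prop :=
  ∀ k t, Ext S k t → φ (C.w k t) = (C.x t, C.x (Function.update t k true))

/-- the code `a` is realised in `Y` -/
def Real (Y : Set (ℕ → ℕ)) {n : ℕ} (a : Code n) : Prop :=
  ∃ C : Conf n, IsConf S φ C ∧ (∀ t, C.x t ∈ Y) ∧ C.cod = a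

/-- terminal codes -/
def Terminal (Y : Set (ℕ → ℕ)) (a : Σ n, Code n) : Prop :=
  ∀ b : Code (a.1 + 1), OneStep a.2 b → ¬ Real S φ Y b

/-- the points to remove -/
def Rem (Y : Set (ℕ → ℕ)) (a : Σ n, Code n) : Set (ℕ → ℕ) :=
  {z | ∃ C : Conf a.1, IsConf S φ C ∧ (∀ t, C.x t ∈ Y) ∧ C.cod = a.2 ∧
    z = C.x (fun i => S a.1 i)}

variable {S φ} {E : Setoid (ℕ → ℕ)}

lemma one_class_aux (hφ : ∀ p, p ∈ range φ ↔ ¬ E p.1 p.2) {Y : Set (ℕ → ℕ)} {n : ℕ}
    {a : Code n} (ha : ∀ b : Code (n + 1), OneStep a b → ¬ Real S φ Y b) {C C' : Conf n}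
    (hC : IsConf S φ C) (hCY : ∀ t, C.x t ∈ Y) (hCa : C.cod = a)
    (hC' : IsConf S φ C') (hCY' : ∀ t, C'.x t ∈ Y) (hCa' : C'.cod = a) :
    E (C.x (fun i => S n i)) (C'.x (fun i => S n i)) := by
  by_contra hne
  obtain ⟨w0, hw0⟩ := (hφ (C.x (fun i => S n i), C'.x (fun i => S n i))).mpr hne
  let D : Conf (n + 1) := 
    { x := fun t => if t (Fin.last n) = false then C.x (fun j => t j.castSucc)
        else C'.x (fun j => t j.castSucc)
      w := fun k t => if h : k.1 < n then
          (if t (Fin.last n) = false then C.w ⟨k, h⟩ (fun j => t j.castSucc)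
            else C'.w ⟨k, h⟩ (fun j => t j.castSucc))
        else w0 }
  have hD : IsConf S φ D := by
    intro k t hkt
    by_cases hk : k.1 < n
    · have hk' : k = Fin.castSucc ⟨k.1, hk⟩ := rfl
      have hlast : Function.update t k true (Fin.last n) = t (Fin.last n) := by
        rw [Function.update_of_ne]
        intro h
        rw [← h] at hk
        exact absurd hk (by simp)
      have hinit : (fun j : Fin n => Function.update t k true j.castSucc) =
          Function.update (fun j : Fin n => t j.castSucc) ⟨k.1, hk⟩ true := by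
        funext j
        by_cases hj : j = ⟨k.1, hk⟩
        · subst hj
          rw [Function.update_self]
          exact Function.update_self _ _ _
        · rw [Function.update_of_ne hj, Function.update_of_ne]
          intro h
          apply hj
          rw [← Fin.castSucc_inj, h]
          exact hk'
      have hext : Ext S (⟨k.1, hk⟩ : Fin n) (fun j : Fin n => t j.castSucc) :=
        ⟨fun i hi => hkt.1 i.castSucc hi, hkt.2⟩
      simp only [D, hk, dif_pos, hlast, hinit]
      by_cases ht : t (Fin.last n) = false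
      · rw [if_pos ht, if_pos ht, if_pos ht]
        exact hC _ _ hext
      · rw [if_neg ht, if_neg ht, if_neg ht]
        exact hC' _ _ hext
    · have hk' : k = Fin.last n := Fin.ext (by have := k.2; simp; omega)
      subst hk'
      have h1 : (fun j : Fin n => t j.castSucc) = fun i : Fin n => S n i := by
        funext j
        exact hkt.1 j.castSucc (by simp)
      have h2 : (fun j : Fin n => Function.update t (Fin.last n) true j.castSucc) =
          fun i : Fin n => S n i := by
        rw [← h1]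
        funext j
        rw [Function.update_of_ne]
        exact (Fin.castSucc_lt_last j).ne
      simp only [D, hk, dif_neg, not_false_eq_true, h2, h1, hkt.2, Function.update_self,
        if_true, hw0]
      simp
  refine ha D.cod ?_ ⟨D, hD, ?_, rfl⟩
  · constructor
    · intro t i
      simp only [Conf.cod, D]
      by_cases ht : t (Fin.last n) = false
      · rw [if_pos ht, ← hCa]
        rfl
      · rw [if_neg ht, ← hCa']
        rfl
    · intro k t i
      have hk : (Fin.castSucc k).1 < n := k.2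
      simp only [Conf.cod, D, hk, dif_pos]
      by_cases ht : t (Fin.last n) = false
      · rw [if_pos ht, ← hCa]
        rfl
      · rw [if_neg ht, ← hCa']
        rfl
  · intro t
    simp only [D]
    by_cases ht : t (Fin.last n) = false
    · rw [if_pos ht]; exact hCY _
    · rw [if_neg ht]; exact hCY' _

lemma one_class (hφ : ∀ p, p ∈ range φ ↔ ¬ E p.1 p.2) {Y : Set (ℕ → ℕ)} {a : Σ n, Code n}
    (ha : Terminal S φ Y a) {z z' : ℕ → ℕ} (hz : z ∈ Rem S φ Y a) (hz' : z' ∈ Rem S φ Y a) :
    E z z' := by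
  obtain ⟨C, hC, hCY, hCa, rfl⟩ := hz
  obtain ⟨C', hC', hCY', hCa', rfl⟩ := hz'
  exact one_class_aux hφ ha hC hCY hCa hC' hCY' hCa'

/-- the derivative is stable -/
lemma exists_stable (hφ : ∀ p, p ∈ range φ ↔ ¬ E p.1 p.2) :
    ∃ Y : Set (ℕ → ℕ), (Quotient.mk E '' Yᶜ).Countable ∧
      ∀ a : Σ n, Code n, Real S φ Y a.2 → ¬ Terminal S φ Y a := by
  classical
  let F : Set (Set (ℕ → ℕ)) := {Y | (Quotient.mk E '' Yᶜ).Countable}
  have huniv : univ ∈ F := by
    change (Quotient.mk E '' univᶜ).Countable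
    simp
  have hpick : ∀ a : Σ n, Code n, ∃ Y ∈ F, (∃ Y' ∈ F, Terminal S φ Y' a) → Terminal S φ Y a := by
    intro a
    by_cases h : ∃ Y' ∈ F, Terminal S φ Y' a
    · obtain ⟨Y', h1, h2⟩ := h
      exact ⟨Y', h1, fun _ => h2⟩
    · exact ⟨univ, huniv, fun h' => absurd h' h⟩
  choose Ya hYaF hYaT using hpick
  have anti : ∀ {Y Y' : Set (ℕ → ℕ)} {a : Σ n, Code n}, Y ⊆ Y' → Terminal S φ Y' a →
      Terminal S φ Y a := by
    intro Y Y' a hYY h b hb hR
    obtain ⟨C, h1, h2, h3⟩ := hR
    exact h b hb ⟨C, h1, fun t => hYY (h2 t), h3⟩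
  let Y : Set (ℕ → ℕ) := ⋂ a, Ya a
  have hYF : Y ∈ F := by
    change (Quotient.mk E '' (⋂ a, Ya a)ᶜ).Countable
    rw [compl_iInter, image_iUnion]
    exact countable_iUnion fun a => hYaF a
  let Y' : Set (ℕ → ℕ) := Y \ ⋃ a ∈ {a : Σ n, Code n | Terminal S φ Y a}, Rem S φ Y a
  have hY'F : Y' ∈ F := by
    change (Quotient.mk E '' Y'ᶜ).Countable
    have h1 : Y'ᶜ ⊆ Yᶜ ∪ ⋃ a ∈ {a : Σ n, Code n | Terminal S φ Y a}, Rem S φ Y a := by
      intro z hz
      by_cases h : z ∈ Y
      · right
        by_contra h'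
        exact hz ⟨h, h'⟩
      · exact Or.inl h
    refine Countable.mono (image_mono h1) ?_
    rw [image_union]
    refine hYF.union ?_
    rw [image_iUnion₂]
    refine (to_countable _).biUnion fun a ha => ?_
    refine Set.Subsingleton.countable ?_
    rintro _ ⟨z, hz, rfl⟩ _ ⟨z', hz', rfl⟩
    exact Quotient.sound (one_class hφ ha hz hz')
  refine ⟨Y', hY'F, fun a hR hT => ?_⟩
  have h1 : Terminal S φ Y a := anti (iInter_subset _ a) (hYaT a ⟨Y', hY'F, hT⟩)
  obtain ⟨C, hC, hCY, hCa⟩ := hR
  apply (hCY (fun i => S a.1 i)).2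
  refine mem_iUnion₂.mpr ⟨a, h1, C, hC, fun t => (hCY t).1, hCa, rfl⟩

/-- coherent sequences of codes -/
lemma exists_seq {Y : Set (ℕ → ℕ)} (hne : Y.Nonempty)
    (hY : ∀ a : Σ n, Code n, Real S φ Y a.2 → ¬ Terminal S φ Y a) :
    ∃ A : ∀ n, Code n, (∀ n, Real S φ Y (A n)) ∧ ∀ n, OneStep (A n) (A (n + 1)) := by
  obtain ⟨y, hy⟩ := hne
  have hnext : ∀ n (a : {a : Code n // Real S φ Y a}),
      ∃ b : {b : Code (n + 1) // Real S φ Y b}, OneStep a.1 b.1 := by
    intro n a
    have h := hY ⟨n, a.1⟩ a.2
    unfold Terminal at h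
    push Not at h
    obtain ⟨b, h1, h2⟩ := h
    exact ⟨⟨b, h2⟩, h1⟩
  choose nx hnx using hnext
  let a0 : {a : Code 0 // Real S φ Y a} :=
    ⟨Conf.cod ⟨fun _ => y, fun k => k.elim0⟩, ⟨⟨fun _ => y, fun k => k.elim0⟩,
      fun k => k.elim0, fun _ => hy, rfl⟩⟩
  let A : ∀ n, {a : Code n // Real S φ Y a} := fun n => Nat.rec a0 (fun n a => nx n a) n
  exact ⟨fun n => (A n).1, fun n => (A n).2, fun n => hnx n (A n)⟩

end

section limit

variable (A : ∀ n, Code n)

/-- the limit points -/
def limx (c : ℕ → Bool) (i : ℕ) : ℕ := (A (i + 1)).1 (fun j => c j) (Fin.last i)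

/-- the limit witnesses -/
def limw (k : ℕ) (c : ℕ → Bool) (i : ℕ) : ℕ :=
  (A (max i k + 1)).2 ⟨k, by omega⟩ (fun j => c j) ⟨i, by omega⟩

variable {A}

lemma limx_eq (hA : ∀ n, OneStep (A n) (A (n + 1))) (c : ℕ → Bool) (i : ℕ) :
    ∀ m (h : i < m), (A m).1 (fun j => c j) ⟨i, h⟩ = limx A c i
  | 0, h => absurd h (Nat.not_lt_zero _)
  | m + 1, h => by
    by_cases h' : i < m
    · have := (hA m).1 (fun j => c j) ⟨i, h'⟩
      exact this.trans (limx_eq hA c i m h')
    · obtain rfl : i = m := by omega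
      rfl

lemma limw_eq (hA : ∀ n, OneStep (A n) (A (n + 1))) (k : ℕ) (c : ℕ → Bool) (i : ℕ) :
    ∀ m (hk : k < m) (h : i < m), (A m).2 ⟨k, hk⟩ (fun j => c j) ⟨i, h⟩ = limw A k c i
  | 0, _, h => absurd h (Nat.not_lt_zero _)
  | m + 1, hk, h => by
    by_cases h' : i < m ∧ k < m
    · have := (hA m).2 ⟨k, h'.2⟩ (fun j => c j) ⟨i, h'.1⟩
      exact this.trans (limw_eq hA k c i m h'.2 h'.1)
    · obtain rfl : m = max i k := by omega
      rfl

lemma continuous_limx : Continuous (limx A) := by
  refine continuous_pi fun i => ?_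
  have h1 : Continuous fun (c : ℕ → Bool) (j : Fin (i + 1)) => c j :=
    continuous_pi fun j => continuous_apply _
  have h2 : Continuous fun (t : Fin (i + 1) → Bool) => (A (i + 1)).1 t (Fin.last i) :=
    continuous_of_discreteTopology
  exact h2.comp h1

end limit

/-- SIL1 -/
theorem SIL1 : Silver1Stmt := by
  intro s hs E hA
  by_cases hq : Countable (Quotient E)
  · exact Or.inl hq
  right
  rw [MeasureTheory.AnalyticSet] at hA
  rcases hA with hA | ⟨φ, hφc, hφr⟩
  · exfalso
    apply hq
    have : Subsingleton (Quotient E) := by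
      constructor
      intro a b
      induction a using Quotient.inductionOn with
      | h x =>
        induction b using Quotient.inductionOn with
        | h y =>
          apply Quotient.sound
          by_contra h
          have : (x, y) ∈ {p : (ℕ → ℕ) × (ℕ → ℕ) | ¬ E p.1 p.2} := h
          rw [hA] at this
          exact this
    infer_instance
  have hφ : ∀ p, p ∈ range φ ↔ ¬ E p.1 p.2 := fun p => by rw [hφr]; rfl
  let S : ℕ → ℕ → Bool := fun k i => (s k).getD i false
  obtain ⟨Y, hYc, hY⟩ := exists_stable (S := S) (E := E) hφ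
  have hne : Y.Nonempty := by
    by_contra h
    rw [not_nonempty_iff_eq_empty] at h
    apply hq
    rw [h, compl_empty, image_univ] at hYc
    rw [← Set.countable_univ_iff]
    refine hYc.mono ?_
    intro q _
    exact Quotient.exists_rep q
  obtain ⟨A, hAR, hAS⟩ := exists_seq hne hY
  choose C hC hCY hCA using hAR
  refine ⟨limx A, continuous_limx, fun k c => ?_⟩
  rw [← hφ (limx A (glue (s k) false c), limx A (glue (s k) true c))]
  refine ⟨limw A k (glue (s k) false c), ?_⟩
  have hsk : (s k).length = k := hs.1 k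
  have hlen : ∀ b, glue (s k) b c k = b := fun b => by
    have : glue (s k) b c (s k).length = b := by simp [glue]
    rwa [hsk] at this
  have hlt : ∀ b i, i < k → glue (s k) b c i = S k i := fun b i hi => by
    have h : i < (s k).length := by rw [hsk]; exact hi
    simp only [glue, h, dif_pos, S]
    rw [List.getD_eq_getElem _ _ h]
  have hgt : ∀ i, k < i → glue (s k) false c i = glue (s k) true c i := fun i hi => by
    have h1 : ¬ i < (s k).length := by rw [hsk]; omega
    have h2 : ¬ i = (s k).length := by rw [hsk]; omega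
    simp only [glue, h1, h2, dif_neg, if_neg, not_false_eq_true]
  -- the converging configurations
  have key : ∀ j : ℕ, φ ((C (j + k + 1)).w ⟨k, by omega⟩ (fun i => glue (s k) false c i)) =
      ((C (j + k + 1)).x (fun i => glue (s k) false c i),
        (C (j + k + 1)).x (fun i => glue (s k) true c i)) := by
    intro j
    have h1 := hC (j + k + 1) ⟨k, by omega⟩ (fun i => glue (s k) false c i)
      ⟨fun i hi => hlt false i hi, hlen false⟩
    rw [h1]
    congr 2
    funext i
    rcases lt_trichotomy i.1 k with h | h | h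
    · rw [Function.update_of_ne]
      · rw [hlt _ _ h, hlt _ _ h]
      · intro h'; rw [h'] at h; exact lt_irrefl _ h
    · rw [show i = ⟨k, by omega⟩ from Fin.ext h, Function.update_self]
      exact (hlen true).symm
    · rw [Function.update_of_ne]
      · exact hgt _ h
      · intro h'; rw [h'] at h; exact lt_irrefl _ h
  have tx : ∀ d : ℕ → Bool, Tendsto (fun j : ℕ => (C (j + k + 1)).x (fun i => d i)) atTop
      (𝓝 (limx A d)) := by
    intro d
    rw [tendsto_pi_nhds]
    intro i
    refine tendsto_const_nhds.congr' ?_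
    filter_upwards [eventually_ge_atTop i] with j hj
    rw [← limx_eq hAS d i (j + k + 1) (by omega), ← hCA]
    rfl
  have tw : Tendsto (fun j : ℕ => (C (j + k + 1)).w ⟨k, by omega⟩
      (fun i => glue (s k) false c i)) atTop (𝓝 (limw A k (glue (s k) false c))) := by
    rw [tendsto_pi_nhds]
    intro i
    refine tendsto_const_nhds.congr' ?_
    filter_upwards [eventually_ge_atTop i] with j hj
    rw [← limw_eq hAS k (glue (s k) false c) i (j + k + 1) (by omega) (by omega), ← hCA]
    rfl
  have t1 := (hφc.tendsto _).comp tw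
  have t2 := (tx (glue (s k) false c)).prodMk_nhds (tx (glue (s k) true c))
  refine tendsto_nhds_unique t1 (t2.congr fun j => ?_)
  exact (key j).symm

end Pool.Agent.H73.HV
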