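import Pool.Agent.H71.HV.Targets2
import Pool.Agent.H71.CC

/-! Module SIL2: a Borel equivalence relation on the Cantor space without `G₀`-edges has
perfectly many classes. -/

set_option autoImplicit false

open Set Topology TopologicalSpace Filter

namespace Pool.Agent.H73.HV

open Pool.Agent.H71.HV

lemma glue_lt (t : List Bool) (b : Bool) (c : ℕ → Bool) {i : ℕ} (h : i < t.length) :
    glue t b c i = t[i] := by
  simp [glue, h]

lemma glue_len (t : List Bool) (b : Bool) (c : ℕ → Bool) : glue t b c t.length = b := by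
  simp [glue]

lemma glue_add (t : List Bool) (b : Bool) (c : ℕ → Bool) (i : ℕ) :
    glue t b c (i + t.length + 1) = c i := by
  have h1 : ¬ i + t.length + 1 < t.length := by omega
  have h2 : ¬ i + t.length + 1 = t.length := by omega
  rw [glue, dif_neg h1, if_neg h2]
  congr 1
  omega

/-- the cylinder of `t⌢b` -/
def cylb (t : List Bool) (b : Bool) : Set (ℕ → Bool) :=
  {x | (∀ i : Fin t.length, x i = t[i]) ∧ x t.length = b}

lemma isOpen_cylb (t : List Bool) (b : Bool) : IsOpen (cylb t b) := by
  unfold cylb
  refine IsOpen.inter ?_ ?_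
  · have : {x : ℕ → Bool | ∀ i : Fin t.length, x i = t[i]} =
        ⋂ i : Fin t.length, (fun x : ℕ → Bool => x i) ⁻¹' {t[i]} := by
      ext x; simp
    change IsOpen {x : ℕ → Bool | ∀ i : Fin t.length, x i = t[i]}
    rw [this]
    exact isOpen_iInter_of_finite fun i => (isOpen_discrete _).preimage (continuous_apply _)
  · change IsOpen ((fun x : ℕ → Bool => x t.length) ⁻¹' {b})
    exact (isOpen_discrete _).preimage (continuous_apply _)

lemma glue_mem_cylb (t : List Bool) (b : Bool) (c : ℕ → Bool) : glue t b c ∈ cylb t b :=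
  ⟨fun i => glue_lt t b c i.2, glue_len t b c⟩

lemma glue_shift {t : List Bool} {b : Bool} {x : ℕ → Bool} (hx : x ∈ cylb t b) :
    glue t b (fun i => x (i + t.length + 1)) = x := by
  funext i
  rcases lt_trichotomy i t.length with h | h | h
  · rw [glue_lt _ _ _ h]
    exact (hx.1 ⟨i, h⟩).symm
  · subst h
    rw [glue_len]
    exact hx.2.symm
  · obtain ⟨k, rfl⟩ : ∃ k, i = k + t.length + 1 := ⟨i - t.length - 1, by omega⟩
    rw [glue_add]

lemma continuous_glue (t : List Bool) (b : Bool) : Continuous (glue t b) := by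
  refine continuous_pi fun i => ?_
  unfold glue
  by_cases h : i < t.length
  · simp only [h, dif_pos]; exact continuous_const
  · by_cases h' : i = t.length
    · simp only [h, h', dif_neg, if_pos, lt_irrefl, not_false_eq_true, ↓reduceDIte]
      exact continuous_const
    · simp only [h, h', dif_neg, if_neg, not_false_eq_true, ↓reduceDIte, ↓reduceIte]
      exact continuous_apply _

lemma isOpenMap_glue (t : List Bool) (b : Bool) : IsOpenMap (glue t b) := by
  intro O hO
  have : glue t b '' O = cylb t b ∩ (fun x i => x (i + t.length + 1)) ⁻¹' O := by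
    ext x
    constructor
    · rintro ⟨c, hc, rfl⟩
      refine ⟨glue_mem_cylb t b c, ?_⟩
      rw [mem_preimage]
      have : (fun i => glue t b c (i + t.length + 1)) = c := funext fun i => glue_add t b c i
      rw [this]; exact hc
    · rintro ⟨h1, h2⟩
      exact ⟨_, h2, glue_shift h1⟩
  rw [this]
  exact (isOpen_cylb t b).inter (hO.preimage (continuous_pi fun i => continuous_apply _))

/-- open sets contain cylinders of members of the dense sequence -/
lemma exists_cyl {s : ℕ → List Bool} (hs : DenseSeq s) {U : Set (ℕ → Bool)} (hU : IsOpen U)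
    (hne : U.Nonempty) : ∃ n, ∀ b c, glue (s n) b c ∈ U := by
  obtain ⟨x, hx⟩ := hne
  obtain ⟨I, u, hu, hIu⟩ := isOpen_pi_iff.mp hU x hx
  let N := I.sup id + 1
  obtain ⟨n, hn⟩ := hs.2 (List.ofFn fun i : Fin N => x i)
  refine ⟨n, fun b c => hIu ?_⟩
  rw [Set.mem_pi]
  intro i hi
  have hi' : i < N := Nat.lt_succ_of_le (Finset.le_sup (f := id) hi)
  have h1 : glue (s n) b c i = x i := by
    have hlen : N ≤ (s n).length := by
      have := hn.length_le
      rwa [List.length_ofFn] at this
    rw [glue_lt _ _ _ (hi'.trans_le hlen)]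
    have := hn.getElem (i := i) (by rwa [List.length_ofFn])
    rw [List.getElem_ofFn] at this
    exact this.symm
  rw [h1]
  exact (hu i hi).2

/-- classes are meagre -/
lemma class_meagre {s : ℕ → List Bool} (hs : DenseSeq s) (E : Setoid (ℕ → Bool))
    (hE : ∀ n c, ¬ E (glue (s n) false c) (glue (s n) true c)) (x : ℕ → Bool)
    (hm : MeasurableSet {y | E x y}) : IsMeagre {y | E x y} := by
  obtain ⟨U, hU, hKU⟩ := hm.residualEq_isOpen
  by_cases hne : U.Nonempty
  · exfalso
    obtain ⟨n, hn⟩ := exists_cyl hs hU hne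
    have h1 : ∀ b, ∀ᶠ c in residual (ℕ → Bool), E x (glue (s n) b c) := by
      intro b
      have := (tendsto_residual_of_isOpenMap (continuous_glue (s n) b)
        (isOpenMap_glue (s n) b)).eventually hKU
      filter_upwards [this] with c hc
      exact (iff_of_eq hc).mpr (hn b c)
    obtain ⟨c, hc1, hc2⟩ := (dense_of_mem_residual ((h1 false).and (h1 true))).nonempty
    exact hE n c (E.trans (E.symm hc1) hc2)
  · rw [not_nonempty_iff_eq_empty] at hne
    subst hne
    have : ∀ᶠ y in residual (ℕ → Bool), y ∉ {y | E x y} := by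
      filter_upwards [hKU] with y hy
      exact fun h => (iff_of_eq hy).mp h
    exact this

/-- SIL2 -/
theorem SIL2 : Silver2Stmt := by
  intro s hs E hE hG
  obtain ⟨f, hf, -, hfE⟩ := Pool.Agent.H71.DST.exists_perfect_of_meagre_sections
    (R := {p : (ℕ → Bool) × (ℕ → Bool) | E p.1 p.2}) hE.analyticSet
    (fun x => class_meagre hs E hG x (measurable_prodMk_left hE))
  exact ⟨f, hf, hfE⟩

end Pool.Agent.H73.HV
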