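import Pool.Agent.H73.HV.SIL
import Pool.Agent.H73.HV.SIL1
import Pool.Agent.H73.HV.SIL2
import Pool.Agent.H73.HV.ER
import Pool.Agent.H73.HV.HOM

/-! Silver's theorem and the coherent Erdős–Rado theorem. -/

set_option autoImplicit false

namespace Pool.Agent.H73.HV

/-- Silver's theorem for Borel equivalence relations on the Baire space -/
theorem silver : Pool.Agent.H71.HV.SilverStmt := SIL SIL1 SIL2

/-- coherent homogeneous sets -/
theorem hom : Pool.Agent.H71.HV.HomStmt := HOM ER

end Pool.Agent.H73.HV
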